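import Pool.Agent.H20.PK.Fin

/-!
One Artin-Schreier step over `M_1^2`, over the compositum of the `[t_1, …, t_r]`, `t_i ∈ T`, for any
finite extension `T` of `k(x)`.
-/

set_option linter.style.haveILetI false

namespace RS

open IntermediateField

variable {k K : Type*} [Field k] [Field K] [Algebra k K]

theorem ramS_mono_s {N : ℕ} (F : IntermediateField k K) {s s' : ℕ} (h : s ≤ s') :
    ramS N s F ≤ ramS N s' F := by
  intro z hz
  obtain ⟨e, he, hez⟩ := mem_ramS.1 hz
  refine mem_ramS.2 ⟨e, he, fun g hg => ?_⟩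
  have h1 : e * N ^ s' = e * N ^ s * N ^ (s' - s) := by
    rw [mul_assoc, ← pow_add]
    congr 2
    omega
  rw [h1]
  exact fix_mul_left (hez g hg) _

/-- finitely generated fields are in some `F_s` -/
theorem exists_le_ramS {N : ℕ} (hN : N.Prime) {F : IntermediateField k K}
    [Algebra.IsAlgebraic F K] {T : IntermediateField k K} (hT : T.FG) :
    ∃ s, T ≤ ramS N s F := by
  classical
  obtain ⟨S, rfl⟩ := hT
  choose a ha using exists_mem_priS (k := k) hN F
  refine ⟨S.sup a, ?_⟩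
  rw [adjoin_le_iff]
  intro z hz
  exact ramS_mono_s F (Finset.le_sup (f := a) hz) (priS_le_ramS N (a z) F (ha z))

/-- the theorem for finitely generated `T` -/
theorem sharp_FG [IsAlgClosed k] [IsAlgClosed K] (p : ℕ) [Fact p.Prime] [CharP K p]
    [CharP k p] {m n : ℕ} (hmn : m ≤ n) {x : Fin n → K} (hx : IsTranscendenceBasis k x) {r : ℕ}
    (hr1 : 1 ≤ r) (hr : r < m) {T : IntermediateField k K} (hFT : adjoin k (Set.range x) ≤ T)
    (hT : T.FG) :
    ∃ W : K, W ∈ ALG.M k x 1 2 ∧ W ∈ ALG.M k x m 2 ∧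
      ∀ e : K, e ^ p - e = W → ∀ d < p, ∀ L : IntermediateField k K,
        ALG.Tower d (comp T r) L → e ∉ L := by
  haveI : Algebra.IsAlgebraic (adjoin k (Set.range x)) K := hx.isAlgebraic_field
  obtain ⟨N, hN, hNk⟩ : ∃ N : ℕ, N.Prime ∧ (N : k) ≠ 0 := by
    by_cases hp : p = 2
    · refine ⟨3, Nat.prime_three, fun h => ?_⟩
      have h1 := (CharP.cast_eq_zero_iff k p 3).1 h
      rw [hp] at h1
      omega
    · refine ⟨2, Nat.prime_two, fun h => ?_⟩
      have h1 := (CharP.cast_eq_zero_iff k p 2).1 h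
      exact hp ((Nat.prime_dvd_prime_iff_eq Fact.out Nat.prime_two).1 h1)
  obtain ⟨s, hs⟩ := exists_le_ramS hN (F := adjoin k (Set.range x)) hT
  obtain ⟨W, h1, h2, h3, h4⟩ := sharp_genS hmn p hx hr1 hr hN hNk 0 s (Or.inl rfl)
  refine ⟨W, h1, h2, fun e he d hd L hL => ?_⟩
  have hle : ALG.M k x r 2 ≤ comp T r := by
    rw [M_eq_comp]
    exact comp_mono hFT r
  have hac : ALG.ac (comp T r) = ⊤ := by
    rw [eq_top_iff, ← ALG.ac_top_of_basis hx]
    exact ALG.ac_mono ((ALG.F_le_M r hr1).trans hle)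
  refine (as_tower p hd hac (by rw [he]; exact hle h3) (fun h => h4 e he ?_) hL).2
  exact comp_mono (hs.trans (ramS_le_genS x 0 N s)) r h

end RS
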