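import Pool.Agent.H20.KG.MovG

/-!
A power of an inert automorphism which rotates `w`, `w ^ N = 1 + t ^ N`.
-/

set_option linter.style.haveILetI false

namespace RS

open IntermediateField

variable {k K : Type*} [Field k] [Field K] [Algebra k K]

/-- powers of inert automorphisms are inert -/
theorem pow_inert {B : ValuationSubring K} {γ : Gal(K/k)}
    (h : ∀ z ∈ B, B.valuation (γ z - z) < 1) (j : ℕ) :
    ∀ z ∈ B, B.valuation ((γ ^ j) z - z) < 1 := by
  induction j with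
  | zero => intro z _; rw [pow_zero, AlgEquiv.one_apply, sub_self, map_zero]; exact zero_lt_one
  | succ j ih =>
    intro z hz
    have h1 := ih z hz
    have h2 : (γ ^ j) z ∈ B := by
      have h3 := add_mem ((B.valuation_le_one_iff _).1 h1.le) hz
      rwa [sub_add_cancel] at h3
    have h4 := h _ h2
    have h5 : (γ ^ (j + 1)) z - z = (γ ((γ ^ j) z) - (γ ^ j) z) + ((γ ^ j) z - z) := by
      rw [pow_succ', AlgEquiv.mul_apply]
      ring
    rw [h5]
    exact Valuation.map_add_lt _ h4 h1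

theorem pow_fix1 {g : Gal(K/k)} {z : K} (h : g z = z) (j : ℕ) : (g ^ j) z = z := by
  induction j with
  | zero => rw [pow_zero, AlgEquiv.one_apply]
  | succ j ih => rw [pow_succ, AlgEquiv.mul_apply, h, ih]

/-- the rotation of `w` -/
theorem exists_G [IsAlgClosed k] [IsAlgClosed K] {N : ℕ} (hN : N.Prime) (hNk : (N : k) ≠ 0)
    {F Ω : IntermediateField k K} (hΩ : ALG.ac Ω = Ω) {t b w : K} (ht : t ∉ Ω)
    (htop : ALG.ac (Ω ⊔ k⟮t⟯) = ⊤) (htb : t ^ N = b) (hw : w ^ N = 1 + b) (s : ℕ) {l : ℕ}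
    {u : Fin l → K} {e : ℕ} (heN : Nat.Coprime e N)
    (hin : ∀ γ ∈ Ω.fixingSubgroup, ∀ ζ : k, IsPrimitiveRoot ζ (N ^ (s + 2)) →
      γ t = algebraMap k K ζ * t → ∀ B : ValuationSubring K,
      (∀ c ∈ Ω, c ≠ 0 → B.valuation c = 1) → (∀ z ∈ B, B.valuation (γ z - z) < 1) →
      1 < B.valuation t → ∀ h ∈ F.fixingSubgroup, ∀ j, (γ ^ (e * N ^ s)) (h (u j)) = h (u j)) :
    ∃ G ∈ Ω.fixingSubgroup, (∀ h ∈ F.fixingSubgroup, ∀ j, G (h (u j)) = h (u j)) ∧
      ∃ χ : k, χ ≠ 1 ∧ G w = algebraMap k K χ * w := by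
  haveI : NeZero ((N ^ (s + 2) : ℕ) : k) := ⟨by rw [Nat.cast_pow]; exact pow_ne_zero _ hNk⟩
  obtain ⟨ζ, hζ⟩ := HasEnoughRootsOfUnity.exists_primitiveRoot k (N ^ (s + 2))
  have hζ0 : ζ ≠ 0 := by
    have h1 : 0 < N ^ (s + 2) := Nat.pow_pos hN.pos
    exact hζ.ne_zero h1.ne'
  obtain ⟨γ, hγΩ, hγt, B, hBΩ, hγB, hBt⟩ := exists_inert_rot' Ω hΩ ht htop hζ0
  have hfix := hin γ hγΩ ζ hζ hγt B hBΩ hγB hBt
  have hrotl : ∀ j : ℕ, (γ ^ j) t = algebraMap k K (ζ ^ j) * t := by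
    intro j
    induction j with
    | zero => simp
    | succ j ih =>
      rw [pow_succ', AlgEquiv.mul_apply, ih, map_mul, AlgEquiv.commutes, hγt, pow_succ, map_mul]
      ring
  set M : ℕ := e * N ^ s * N with hM
  have hGt := hrotl M
  set χ : k := ζ ^ M with hχ
  have hχN : χ ^ N = 1 := by
    rw [hχ, ← pow_mul]
    have h1 : M * N = N ^ (s + 2) * e := by rw [hM, pow_add]; ring
    rw [h1, pow_mul, hζ.pow_eq_one, one_pow]
  have hχ1 : χ ≠ 1 := by
    intro h
    have h1 := (hζ.pow_eq_one_iff_dvd _).1 h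
    have h2 : M = e * N ^ (s + 1) := by rw [hM, pow_succ]; ring
    rw [h2, show s + 2 = (s + 1) + 1 from rfl, pow_succ' N (s + 1),
      Nat.mul_dvd_mul_iff_right (Nat.pow_pos hN.pos)] at h1
    have h3 := Nat.Coprime.eq_one_of_dvd heN.symm h1
    exact hN.one_lt.ne' h3
  have hk : ∀ c : k, c ≠ 0 → B.valuation (algebraMap k K c) = 1 := fun c hc =>
    hBΩ _ (Ω.algebraMap_mem c) ((map_ne_zero _).2 hc)
  have ht0 : t ≠ 0 := by
    rintro rfl
    rw [map_zero] at hBt
    exact not_lt_zero' hBt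
  have hGΩ : γ ^ M ∈ Ω.fixingSubgroup := pow_mem hγΩ M
  have hGb : (γ ^ M) b = b := by
    rw [← htb, map_pow, hGt, mul_pow, ← map_pow, hχN, map_one, one_mul]
  refine ⟨γ ^ M, hGΩ, fun h hh j => ?_, χ, hχ1, ?_⟩
  · rw [hM, pow_mul]
    have h1 := hfix h hh j
    exact pow_fix1 h1 N
  · obtain ⟨χ', hχ'⟩ := ALG.exists_algebraMap_of_pow (k := k) (a := (γ ^ M) w) (b := w) N
      hN.one_le (by rw [← map_pow, hw, map_add, map_one, hGb])
    -- `q = w / t` is a unit
    set q : K := w / t with hq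
    have hqN : q ^ N = 1 + (t ^ N)⁻¹ := by
      have h1 : t ^ N ≠ 0 := pow_ne_zero _ ht0
      rw [hq, div_pow, hw, ← htb]
      field_simp
      ring
    have hv : B.valuation (t ^ N)⁻¹ < 1 := by
      rw [map_inv₀, map_pow]
      exact inv_lt_one_of_one_lt₀ (one_lt_pow₀ hBt hN.ne_zero)
    have hqv : B.valuation (q ^ N) = 1 := by
      rw [hqN]
      exact Valuation.map_one_add_of_lt _ hv
    have hqv1 : B.valuation q = 1 := by
      rw [map_pow] at hqv
      exact (pow_eq_one_iff.1 hqv).resolve_right hN.ne_zero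
    have hqB : q ∈ B := by
      rw [← B.valuation_le_one_iff]
      exact hqv1.le
    have hχ0 : χ ≠ 0 := pow_ne_zero _ hζ0
    have hGq : (γ ^ M) q = algebraMap k K (χ' / χ) * q := by
      rw [hq, map_div₀, hχ', hGt, map_div₀, mul_div_mul_comm]
    have h1 := pow_inert hγB M q hqB
    rw [hGq] at h1
    have h2 : algebraMap k K (χ' / χ) * q - q = algebraMap k K (χ' / χ - 1) * q := by
      rw [map_sub, map_one]
      ring
    rw [h2, map_mul, hqv1, mul_one] at h1
    have h3 : χ' / χ - 1 = 0 := by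
      by_contra h4
      rw [hk _ h4] at h1
      exact lt_irrefl _ h1
    have h4 : χ' = χ := by
      rw [sub_eq_zero, div_eq_one_iff_eq hχ0] at h3
      exact h3
    rw [hχ', h4]

end RS
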