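import Pool.Agent.H20.PX.Mov

/-!
Artin-Schreier elements and towers of radicals and equations of degree less than `p`.
-/

set_option linter.style.haveILetI false

namespace RS

open IntermediateField

variable {k K : Type*} [Field k] [Field K] [Algebra k K]

theorem as_pow_mem (p : ℕ) [Fact p.Prime] [CharP K p] {L : IntermediateField k K} {e : K}
    (heW : e ^ p - e ∈ L) (a : ℕ) : e ^ p ^ a - e ∈ L := by
  induction a with
  | zero =>
    have h1 : e ^ p ^ 0 - e = 0 := by rw [pow_zero, pow_one, sub_self]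
    rw [h1]
    exact zero_mem _
  | succ a ih =>
    have h3 : (e ^ p ^ a - e) ^ p = (e ^ p ^ a) ^ p - e ^ p := sub_pow_char _ _
    have h4 : e ^ p ^ (a + 1) = (e ^ p ^ a) ^ p := by rw [pow_succ p a, pow_mul]
    have h2 : e ^ p ^ (a + 1) - e = (e ^ p ^ a - e) ^ p + (e ^ p - e) := by
      rw [h3, h4]
      ring
    rw [h2]
    exact add_mem (pow_mem ih p) heW

theorem as_fixed [IsAlgClosed K] (p : ℕ) [Fact p.Prime] [CharP K p] [CharP k p]
    {L : IntermediateField k K} [Algebra.IsAlgebraic L K] {e : K} (heW : e ^ p - e ∈ L)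
    (hcon : ∀ g ∈ L.fixingSubgroup, g e = e) : e ∈ L := by
  have : ExpChar k p := ExpChar.prime Fact.out
  obtain ⟨a, ha⟩ := ALG.pow_mem_of_fixed p L hcon
  have h3 := sub_mem ha (as_pow_mem p heW a)
  rw [sub_sub_cancel] at h3
  exact h3

theorem exists_as_move [IsAlgClosed K] (p : ℕ) [Fact p.Prime] [CharP K p] [CharP k p]
    {L : IntermediateField k K} (hac : ALG.ac L = ⊤) {e : K} (heW : e ^ p - e ∈ L) (he : e ∉ L) :
    ∃ g ∈ L.fixingSubgroup, g e ≠ e := by
  by_contra hcon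
  have hcon' : ∀ g ∈ L.fixingSubgroup, g e = e := by
    intro g hg
    by_contra h
    exact hcon ⟨g, hg, h⟩
  have halg : Algebra.IsAlgebraic L K := ⟨fun z => ALG.mem_ac.1 (by rw [hac]; exact mem_top)⟩
  exact he (as_fixed p heW hcon')

/-- a step over which an automorphism has a power prime to `p` which is trivial -/
theorem no_step [IsAlgClosed k] (p : ℕ) [Fact p.Prime] [CharP K p] {L : IntermediateField k K}
    {e z : K} (heW : e ^ p - e ∈ L) {g : Gal(K/k)} (hg : g ∈ L.fixingSubgroup) (hge : g e ≠ e)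
    {M : ℕ} (hM : ¬ p ∣ M) (hz : (g ^ M) z = z) : e ∉ L ⊔ k⟮z⟯ := by
  intro hmem
  have h1 : g ^ M ∈ (L ⊔ k⟮z⟯).fixingSubgroup := by
    rw [fixingSubgroup_sup, Subgroup.mem_inf]
    exact ⟨pow_mem hg M, ALG.mem_fs_adjoin.2 (by rintro _ rfl; exact hz)⟩
  have h2 := ALG.mem_fs.1 h1 _ hmem
  obtain ⟨c, hc, -⟩ := PX.exists_const_sub (k := k) p (w := g e) (z := e) (v := e ^ p - e) (by
    rw [← map_pow, ← map_sub, ALG.mem_fs.1 hg _ heW]) rfl
  have h3 : ∀ j : ℕ, (g ^ j) e = e + (j : K) * algebraMap k K c := by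
    intro j
    induction j with
    | zero => simp
    | succ j ih =>
      rw [pow_succ', AlgEquiv.mul_apply, ih, map_add, map_mul, map_natCast, AlgEquiv.commutes,
        hc, Nat.cast_succ]
      ring
  rw [h3, add_eq_left, mul_eq_zero] at h2
  rcases h2 with h2 | h2
  · exact hM ((CharP.cast_eq_zero_iff K p M).1 h2)
  · exact hge (by rw [hc, h2, add_zero])

/-- radicals -/
theorem rad_step [IsAlgClosed k] (p : ℕ) [Fact p.Prime] [CharP K p] {L : IntermediateField k K}
    {z : K} {g : Gal(K/k)} (hg : g ∈ L.fixingSubgroup) {q : ℕ} (hq : 1 ≤ q) (hz : z ^ q ∈ L) :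
    ∃ M, ¬ p ∣ M ∧ (g ^ M) z = z := by
  obtain ⟨a, q', hq', hqq⟩ := Nat.exists_eq_pow_mul_and_not_dvd (n := q) (by omega) p
    (Nat.Prime.ne_one Fact.out)
  refine ⟨q', hq', ?_⟩
  have hpow : (g z) ^ q = z ^ q := by rw [← map_pow, ALG.mem_fs.1 hg _ hz]
  obtain ⟨χ, hχ⟩ := ALG.exists_algebraMap_of_pow (k := k) (a := g z) (b := z) q hq hpow
  have h1 : ∀ j : ℕ, (g ^ j) z = algebraMap k K (χ ^ j) * z := by
    intro j
    induction j with
    | zero => simp
    | succ j ih =>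
      rw [pow_succ', AlgEquiv.mul_apply, ih, map_mul, AlgEquiv.commutes, hχ, pow_succ, map_mul]
      ring
  rw [h1]
  by_cases h0 : z = 0
  · rw [h0, mul_zero]
  · have h2 : (algebraMap k K χ) ^ q = 1 := by
      rw [hχ, mul_pow] at hpow
      exact mul_right_cancel₀ (pow_ne_zero _ h0) (by rw [hpow, one_mul])
    have h3 : (algebraMap k K (χ ^ q') - 1) ^ p ^ a = 0 := by
      rw [sub_pow_char_pow, one_pow, map_pow, ← pow_mul, mul_comm q' _, ← hqq, h2, sub_self]
    have h4 := eq_zero_of_pow_eq_zero h3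
    rw [sub_eq_zero.1 h4, one_mul]

/-- equations of small degree -/
theorem deg_step (p : ℕ) {L : IntermediateField k K} {z : K} {g : Gal(K/k)}
    (hg : g ∈ L.fixingSubgroup) {d : ℕ} (hd : d < p) {P : Polynomial L} (hP : P ≠ 0)
    (hPd : P.natDegree ≤ d) (hz : Polynomial.aeval z P = 0) :
    ∃ M, ¬ p ∣ M ∧ (g ^ M) z = z := by
  classical
  have hroot : ∀ j : ℕ, (g ^ j) z ∈ P.rootSet K := by
    intro j
    rw [Polynomial.mem_rootSet]
    refine ⟨hP, ?_⟩
    rw [ALG.aeval_fix L P z _ (pow_mem hg j), hz, map_zero]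
  have hcard : Fintype.card (P.rootSet K) < Fintype.card (Fin (d + 1)) := by
    rw [Fintype.card_fin]
    have h1 : Fintype.card (P.rootSet K) ≤ P.natDegree := by
      rw [← Nat.card_eq_fintype_card]
      exact Polynomial.ncard_rootSet_le P K
    omega
  obtain ⟨i, j, hij, heq⟩ := Fintype.exists_ne_map_eq_of_card_lt
    (fun j : Fin (d + 1) => (⟨(g ^ (j : ℕ)) z, hroot j⟩ : P.rootSet K)) hcard
  have heq' : (g ^ (i : ℕ)) z = (g ^ (j : ℕ)) z := congrArg Subtype.val heq
  have key : ∀ i j : Fin (d + 1), (i : ℕ) < j → (g ^ (i : ℕ)) z = (g ^ (j : ℕ)) z →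
      ∃ M, ¬ p ∣ M ∧ (g ^ M) z = z := by
    intro i j hlt h
    refine ⟨(j : ℕ) - i, fun h1 => ?_, ?_⟩
    · have h2 := Nat.le_of_dvd (by omega) h1
      have h3 := j.2
      omega
    · have h4 : (j : ℕ) = i + ((j : ℕ) - i) := by omega
      rw [h4, pow_add, AlgEquiv.mul_apply] at h
      exact ((g ^ (i : ℕ)).injective h).symm
  rcases lt_or_gt_of_ne (fun h => hij (Fin.ext h) : (i : ℕ) ≠ j) with h | h
  · exact key i j h heq'
  · exact key j i h heq'.symm

/-- towers -/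
theorem as_tower [IsAlgClosed k] [IsAlgClosed K] (p : ℕ) [Fact p.Prime] [CharP K p] [CharP k p]
    {d : ℕ} (hd : d < p) {L₀ : IntermediateField k K} (hac : ALG.ac L₀ = ⊤) {e : K}
    (heW : e ^ p - e ∈ L₀) (he : e ∉ L₀) {L : IntermediateField k K} (hL : ALG.Tower d L₀ L) :
    L₀ ≤ L ∧ e ∉ L := by
  induction hL with
  | base => exact ⟨le_rfl, he⟩
  | radical z q hL hq hz ih =>
    obtain ⟨hle, hne⟩ := ih
    refine ⟨hle.trans le_sup_left, ?_⟩
    obtain ⟨g, hg, hge⟩ := exists_as_move p (by rw [eq_top_iff, ← hac]; exact ALG.ac_mono hle)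
      (hle heW) hne
    obtain ⟨M, hM, hMz⟩ := rad_step p hg hq hz
    exact no_step p (hle heW) hg hge hM hMz
  | degree z P hL hP hPd hz ih =>
    obtain ⟨hle, hne⟩ := ih
    refine ⟨hle.trans le_sup_left, ?_⟩
    obtain ⟨g, hg, hge⟩ := exists_as_move p (by rw [eq_top_iff, ← hac]; exact ALG.ac_mono hle)
      (hle heW) hne
    obtain ⟨M, hM, hMz⟩ := deg_step p hg hd hP hPd hz
    exact no_step p (hle heW) hg hge hM hMz

end RS
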