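import Pool.Agent.H20.PK.Ind
import Pool.Agent.H20.PK.G
import Pool.Agent.H20.PK.Tow
import Pool.Agent.H20.KG.Fin

/-!
One Artin-Schreier step over `M_1^2` leaves the compositum of the `[t_1, …, t_r]`, `t_i ∈ F_(s,δ)`.
-/

set_option linter.style.haveILetI false

namespace RS

open IntermediateField

variable {k K : Type*} [Field k] [Field K] [Algebra k K]
variable {m n : ℕ} {x : Fin n → K} {y w : Fin m → K} (hmn : m ≤ n) {N : ℕ}

include hmn in
/-- the last step of Lemma V -/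
theorem exists_v_of_G [IsAlgClosed k] [IsAlgClosed K] (p : ℕ) [Fact p.Prime] [CharP K p]
    {x'' : Fin n → K} (hx'' : IsTranscendenceBasis k x'') (hN : N.Prime)
    (hy : ∀ j, y j ^ N = x'' (Fin.castLE hmn j)) (hw : ∀ j, w j ^ N = 1 + y j) (i : Fin m)
    {F : IntermediateField k K} (hF : F ≤ adjoin k (Set.range x'')) {l : ℕ} {u : Fin l → K}
    {G : Gal(K/k)} (hGΩ : G ∈ (PX.Om k x'' (Fin.castLE hmn i)).fixingSubgroup)
    (hGu : ∀ h ∈ F.fixingSubgroup, ∀ j, G (h (u j)) = h (u j)) {χ : k} (hχ : χ ≠ 1)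
    (hGw : G (w i) = algebraMap k K χ * w i) {θ : k} (hθ : θ ≠ 0) :
    ∃ v : Gal(K/k), (∀ j, v (u j) = u j) ∧ v (∏ j, w j) = ∏ j, w j ∧
      ∀ z : K, z ^ p - z = algebraMap k K θ * ∏ j, w j → v z ≠ z := by
  classical
  obtain ⟨h1, h2⟩ := P_notMem hmn hx'' hN.one_le hN.one_le hy hw i
  have hprod : ∏ j ∈ Finset.univ.erase i, w j ∈ PX.Om k x'' (Fin.castLE hmn i) :=
    prod_mem (fun j hj => w_mem_Om hmn hN.one_le hN.one_le hy hw (Finset.ne_of_mem_erase hj))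
  refine exists_v_aux p (PX.ac_Om _) h1 ?_ (hF.trans h2) hGu hχ ?_ hθ
  · rw [eq_top_iff, ← ALG.ac_top_of_basis hx'']
    exact ALG.ac_mono h2
  · rw [← Finset.mul_prod_erase _ _ (Finset.mem_univ i), map_mul, hGw,
      ALG.mem_fs.1 hGΩ _ hprod]
    ring

include hmn in
/-- Lemma V over `F_(s,δ)` -/
theorem exists_v_genS [IsAlgClosed k] [IsAlgClosed K] (p : ℕ) [Fact p.Prime] [CharP K p]
    (hx : IsTranscendenceBasis k x) (hm0 : 0 < m) (hm : m < n) (hn : 0 < n) (hN : N.Prime)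
    (hNk : (N : k) ≠ 0) (δ s : ℕ) {x'' : Fin n → K}
    (hxx : ∀ l, x'' l ^ (N ^ s) = xk hn x (δ + 1) l)
    (hy : ∀ j, y j ^ N = x'' (Fin.castLE hmn j)) (hw : ∀ j, w j ^ N = 1 + y j) (l : ℕ)
    (u : Fin l → K) (hu : ∀ i, u i ∈ genS (k := k) x δ N s) (θ : k) (hθ : θ ≠ 0) :
    ∃ v : Gal(K/k), (∀ j, v (u j) = u j) ∧ v (∏ j, w j) = ∏ j, w j ∧
      ∀ z : K, z ^ p - z = algebraMap k K θ * ∏ j, w j → v z ≠ z := by
  classical
  have had := adjoin_xk' (k := k) hn (x := x) (δ + 1)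
  have hx' : IsTranscendenceBasis k (xk hn x (δ + 1)) := basis_of_adjoin_eq' hx had
  have hx'' : IsTranscendenceBasis k x'' := basis_of_pow hx' hxx
  let i₀ : Fin m := ⟨0, hm0⟩
  set i : Fin n := Fin.castLE hmn i₀ with hi₀
  have hi : i ≠ lst hn := by
    intro h
    have h1 := congrArg Fin.val h
    simp [lst, hi₀, i₀] at h1
    omega
  obtain ⟨t, ht⟩ := IsAlgClosed.exists_pow_nat_eq (y i₀) hN.pos
  have ht2 : t ^ (N * N) = x'' i := by rw [pow_mul, ht, hy]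
  have htX : t ^ (N ^ (s + 2)) = xk hn x (δ + 1) i := by
    rw [← hxx, ← ht2, ← pow_mul]
    congr 1
    ring
  obtain ⟨e, heN, he⟩ := genS_fin hu
  have hx'Ω : ∀ l, l ≠ i → xk hn x (δ + 1) l ∈ PX.Om k x'' i := by
    intro l hl
    rw [← hxx l]
    exact pow_mem (PX.x_mem_Om hl) _
  have hlast : x (lst hn) ∈ PX.Om k x'' i := by
    rw [← xk_lst hn x (δ + 1)]
    exact hx'Ω _ (Ne.symm hi)
  obtain ⟨G, hGΩ, hGu, χ, hχ, hGw⟩ := exists_G (F := adjoin k (Set.range x)) hN hNk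
    (PX.ac_Om i) (PX.b_notMem_Om hx'' ht2) (PX.Om_top hx'' ht2) ht (hw i₀) s (u := u) heN (by
      intro γ hγΩ ζ hζ hγt B hBΩ hγB hBt h hh j
      refine he γ ⟨?_, B, ?_, hγB⟩ h hh j
      · rw [← had, ALG.mem_fs_adjoin]
        rintro _ ⟨l, rfl⟩
        by_cases hl : l = i
        · rw [hl, ← htX, map_pow, hγt, mul_pow, ← map_pow, hζ.pow_eq_one, map_one, one_mul]
        · exact ALG.mem_fs.1 hγΩ _ (hx'Ω l hl)
      · refine gnr_of_near (c := fun j : Fin n => if j = i then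
          x (lst hn) ^ ((δ + 1) ^ (n - 1 - (i : ℕ))) else x j) (PX.Om k x'' i) hBΩ
          (fun j => ?_) (fun j => ?_) (fun P hP hd => kron_K_part hn hx.1 i P hP hd)
        · split_ifs with hj
          · exact pow_mem hlast _
          · by_cases hjl : j = lst hn
            · rw [hjl]; exact hlast
            · rw [x_eq_xk hn x (δ + 1) hjl, xk_lst]
              exact add_mem (inv_mem (hx'Ω j hj)) (pow_mem hlast _)
        · split_ifs with hj
          · rw [hj]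
            have h1 : x i - x (lst hn) ^ ((δ + 1) ^ (n - 1 - (i : ℕ))) =
                (xk hn x (δ + 1) i)⁻¹ := by
              rw [xk_ne hn x (δ + 1) hi, inv_inv]
            have h2 : 1 < B.valuation (xk hn x (δ + 1) i) := by
              rw [← htX, map_pow]
              exact one_lt_pow₀ hBt (Nat.pow_pos hN.pos).ne'
            rw [h1, map_inv₀]
            exact inv_lt_one_of_one_lt₀ h2
          · rw [sub_self, map_zero]
            exact zero_lt_one)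
  refine exists_v_of_G hmn p hx'' hN hy hw i₀ (F := adjoin k (Set.range x)) ?_ hGΩ hGu hχ hGw hθ
  rw [← had]
  exact F_le_of_pow hxx

include hmn in
/-- Lemma V over `F_s` -/
theorem exists_v_ramS [IsAlgClosed k] [IsAlgClosed K] (p : ℕ) [Fact p.Prime] [CharP K p]
    (hx : IsTranscendenceBasis k x) (hm0 : 0 < m) (hN : N.Prime)
    (hNk : (N : k) ≠ 0) (s : ℕ) {x'' : Fin n → K} (hxx : ∀ l, x'' l ^ (N ^ s) = x l)
    (hy : ∀ j, y j ^ N = x'' (Fin.castLE hmn j)) (hw : ∀ j, w j ^ N = 1 + y j) (l : ℕ)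
    (u : Fin l → K) (hu : ∀ i, u i ∈ ramS N s (adjoin k (Set.range x))) (θ : k) (hθ : θ ≠ 0) :
    ∃ v : Gal(K/k), (∀ j, v (u j) = u j) ∧ v (∏ j, w j) = ∏ j, w j ∧
      ∀ z : K, z ^ p - z = algebraMap k K θ * ∏ j, w j → v z ≠ z := by
  classical
  have hx'' : IsTranscendenceBasis k x'' := basis_of_pow hx hxx
  let i₀ : Fin m := ⟨0, hm0⟩
  set i : Fin n := Fin.castLE hmn i₀ with hi₀
  obtain ⟨t, ht⟩ := IsAlgClosed.exists_pow_nat_eq (y i₀) hN.pos
  have ht2 : t ^ (N * N) = x'' i := by rw [pow_mul, ht, hy]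
  have htX : t ^ (N ^ (s + 2)) = x i := by
    rw [← hxx, ← ht2, ← pow_mul]
    congr 1
    ring
  obtain ⟨e, heN, he⟩ := ramS_fin hu
  obtain ⟨G, hGΩ, hGu, χ, hχ, hGw⟩ := exists_G (F := adjoin k (Set.range x)) hN hNk
    (PX.ac_Om i) (PX.b_notMem_Om hx'' ht2) (PX.Om_top hx'' ht2) ht (hw i₀) s (u := u) heN (by
      intro γ hγΩ ζ hζ hγt B hBΩ hγB hBt h hh j
      refine he γ ⟨?_, B, fun c => ?_, hγB⟩ h hh j
      · rw [ALG.mem_fs_adjoin]
        rintro _ ⟨l, rfl⟩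
        by_cases hl : l = i
        · rw [hl, ← htX, map_pow, hγt, mul_pow, ← map_pow, hζ.pow_eq_one, map_one, one_mul]
        · rw [← hxx l, map_pow, ALG.mem_fs.1 hγΩ _ (PX.x_mem_Om hl)]
      · rw [← B.valuation_le_one_iff]
        by_cases h0 : c = 0
        · rw [h0, map_zero, map_zero]
          exact zero_le_one
        · exact (hBΩ _ (IntermediateField.algebraMap_mem _ c) ((map_ne_zero _).2 h0)).le)
  exact exists_v_of_G hmn p hx'' hN hy hw i₀ (F := adjoin k (Set.range x)) (F_le_of_pow hxx)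
    hGΩ hGu hχ hGw hθ

include hmn in
/-- THE THEOREM: one Artin-Schreier step over `M_1^2` leaves the compositum of the
`[t_1, …, t_r]`, `t_i ∈ F_(s,δ)` -/
theorem sharp_genS [IsAlgClosed k] [IsAlgClosed K] (p : ℕ) [Fact p.Prime] [CharP K p]
    (hx : IsTranscendenceBasis k x) {r : ℕ} (hr1 : 1 ≤ r) (hr : r < m) (hN : N.Prime)
    (hNk : (N : k) ≠ 0) (δ s : ℕ) (hδ : δ = 0 ∨ (m < n ∧ N ≠ 2)) :
    ∃ W : K, W ∈ ALG.M k x 1 2 ∧ W ∈ ALG.M k x m 2 ∧ W ∈ ALG.M k x r 2 ∧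
      ∀ e : K, e ^ p - e = W → e ∉ comp (genS (k := k) x δ N s) r := by
  have hpos : 0 < N ^ (s + 1) := Nat.pow_pos hN.pos
  have hm0 : 0 < m := by omega
  by_cases h0 : δ = 0
  · subst h0
    have hyex : ∀ j : Fin m, ∃ y : K, y ^ (N ^ (s + 1)) = x (Fin.castLE hmn j) :=
      fun j => IsAlgClosed.exists_pow_nat_eq _ hpos
    choose y hy using hyex
    have hwex : ∀ j : Fin m, ∃ w : K, w ^ N = 1 + y j := fun j =>
      IsAlgClosed.exists_pow_nat_eq _ hN.pos
    choose w hw using hwex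
    obtain ⟨x'', hxx, hy'⟩ := exists_x' hmn hN s hy
    refine ⟨∏ j, w j, P_mem_M hmn 1 le_rfl (Nat.one_le_pow _ _ hN.pos) hN.one_le hy hw, ?_,
      P_mem_M hmn r hr1 (Nat.one_le_pow _ _ hN.pos) hN.one_le hy hw, fun e he => ?_⟩
    · apply ALG.bracket_le_M m 0 (fun j => x (Fin.castLE hmn j))
        (fun j => subset_adjoin k _ ⟨_, rfl⟩)
      exact P_mem_ac hmn (Nat.one_le_pow _ _ hN.pos) hN.one_le hy hw
    · rw [genS_zero]
      exact as_notMem_comp p (hasRot_ramS hmn hx hr hN hNk s hxx hy' hw)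
        (exists_v_ramS hmn p hx hm0 hN hNk s hxx hy' hw) he
  · obtain ⟨hm, hN2⟩ : m < n ∧ N ≠ 2 := hδ.resolve_left h0
    have hn : 0 < n := by omega
    have h2 := hN.two_le
    have had := adjoin_xk' (k := k) hn (x := x) (δ + 1)
    have hyex : ∀ j : Fin m, ∃ y : K, y ^ (N ^ (s + 1)) = xk hn x (δ + 1) (Fin.castLE hmn j) :=
      fun j => IsAlgClosed.exists_pow_nat_eq _ hpos
    choose y hy using hyex
    have hwex : ∀ j : Fin m, ∃ w : K, w ^ N = 1 + y j := fun j =>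
      IsAlgClosed.exists_pow_nat_eq _ hN.pos
    choose w hw using hwex
    obtain ⟨x'', hxx, hy'⟩ := exists_x' hmn hN s hy
    refine ⟨∏ j, w j, ?_, ?_, ?_, fun e he => ?_⟩
    · rw [← M_congr had]
      exact P_mem_M hmn 1 le_rfl (Nat.one_le_pow _ _ hN.pos) hN.one_le hy hw
    · rw [← M_congr had]
      apply ALG.bracket_le_M m 0 (fun j => xk hn x (δ + 1) (Fin.castLE hmn j))
        (fun j => subset_adjoin k _ ⟨_, rfl⟩)
      exact P_mem_ac hmn (Nat.one_le_pow _ _ hN.pos) hN.one_le hy hw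
    · rw [← M_congr had]
      exact P_mem_M hmn r hr1 (Nat.one_le_pow _ _ hN.pos) hN.one_le hy hw
    · exact as_notMem_comp p (hasRot_genS hmn hx hr hm hn hN (by omega) hNk δ s hxx hy' hw)
        (exists_v_genS hmn p hx hm0 hm hn hN hNk δ s hxx hy' hw) he

include hmn in
/-- the same for all towers of radicals and equations of degree less than `p` over the compositum -/
theorem sharp_tower [IsAlgClosed k] [IsAlgClosed K] (p : ℕ) [Fact p.Prime] [CharP K p]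
    [CharP k p] (hx : IsTranscendenceBasis k x) {r : ℕ} (hr1 : 1 ≤ r) (hr : r < m)
    (hN : N.Prime) (hNk : (N : k) ≠ 0) (δ s : ℕ) (hδ : δ = 0 ∨ (m < n ∧ N ≠ 2)) :
    ∃ W : K, W ∈ ALG.M k x 1 2 ∧ W ∈ ALG.M k x m 2 ∧
      ∀ e : K, e ^ p - e = W → ∀ d < p, ∀ L : IntermediateField k K,
        ALG.Tower d (comp (genS (k := k) x δ N s) r) L → e ∉ L := by
  obtain ⟨W, h1, h2, h3, h4⟩ := sharp_genS hmn p hx hr1 hr hN hNk δ s hδ
  refine ⟨W, h1, h2, fun e he d hd L hL => ?_⟩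
  have hle : ALG.M k x r 2 ≤ comp (genS (k := k) x δ N s) r := by
    rw [M_eq_comp]
    exact comp_mono ((le_ramS N s _).trans (ramS_le_genS x δ N s)) r
  have hF : adjoin k (Set.range x) ≤ ALG.M k x r 2 := by
    intro z hz
    have h5 : ALG.bracket (k := k) (fun _ : Fin r => z) ≤ ALG.M k x r 2 :=
      ALG.bracket_le_M r 0 (fun _ : Fin r => z) (fun _ => hz)
    exact h5 (ALG.mem_bracket (fun _ : Fin r => z) ⟨0, hr1⟩)
  have hac : ALG.ac (comp (genS (k := k) x δ N s) r) = ⊤ := by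
    rw [eq_top_iff, ← ALG.ac_top_of_basis hx]
    exact ALG.ac_mono (hF.trans hle)
  exact (as_tower p hd hac (by rw [he]; exact hle h3) (h4 e he) hL).2

end RS
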