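import Pool.Agent.H20.PX.Mov
import Pool.Agent.H20.RT.All

/-!
Iterated commutators on the Artin-Schreier roots `z ^ p - z = θ W`, `W` with rotations over `D`.
-/

set_option linter.style.haveILetI false

namespace RS

open IntermediateField

variable {k K : Type*} [Field k] [Field K] [Algebra k K]

/-- the induction on the finite set of tuples -/
theorem exists_comm_W [IsAlgClosed k] [IsAlgClosed K] (p : ℕ) [Fact p.Prime] [CharP K p]
    {D Φ : IntermediateField k K} (hΦ : Φ ≤ D) {N r : ℕ} {W : K} (hrot : HasRot k D N r W)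
    (S : Finset (Fin r → K)) (hS : ∀ t ∈ S, ∀ i, t i ∈ Φ) :
    ∃ θ : k, θ ≠ 0 ∧ ∀ v ∈ Φ.fixingSubgroup, v W = W → ∃ D' ∈ Φ.fixingSubgroup, D' W = W ∧
      (∀ t ∈ S, D' ∈ (ALG.bracket (k := k) t).fixingSubgroup) ∧
      ∀ (η : k) (z z' : K), z ^ p - z = algebraMap k K η * W →
        z' ^ p - z' = algebraMap k K (θ * η) * W → D' z - z = v z' - z' := by
  classical
  -- roots of the same equation are moved by the same constant
  have hsame : ∀ (v : Gal(K/k)) (a z z' : K), z ^ p - z = a → z' ^ p - z' = a →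
      v z - z = v z' - z' := by
    intro v a z z' hz hz'
    obtain ⟨c, hc, -⟩ := PX.exists_const_sub (k := k) p hz' hz
    rw [hc, map_add, AlgEquiv.commutes]
    ring
  induction S using Finset.induction_on with
  | empty =>
    refine ⟨1, one_ne_zero, fun v hv hvW => ⟨v, hv, hvW, by simp, fun η z z' hz hz' => ?_⟩⟩
    rw [one_mul] at hz'
    exact hsame v _ z z' hz hz'
  | insert t S ht ih =>
    obtain ⟨θ, hθ, ih⟩ := ih (fun t' ht' => hS t' (Finset.mem_insert_of_mem ht'))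
    have htΦ := hS t (Finset.mem_insert_self t S)
    obtain ⟨g, hgD, hgt, χ, -, hχ1, hgW⟩ := hrot t (fun i => hΦ (htΦ i))
    have hgΦ : g ∈ Φ.fixingSubgroup := fixingSubgroup_antitone hΦ hgD
    refine ⟨θ * (1 - χ), mul_ne_zero hθ (sub_ne_zero.2 (Ne.symm hχ1)), fun v hv hvW => ?_⟩
    obtain ⟨D', hD'Φ, hD'W, hD'S, hD'⟩ := ih v hv hvW
    refine ⟨PX.cm D' g, PX.cm_mem hD'Φ hgΦ, ?_, ?_, ?_⟩
    · rw [PX.cm_apply, hgW, map_mul, AlgEquiv.commutes, PX.inv_apply_of_fix hD'W, ← hgW,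
        PX.apply_inv, hD'W]
    · intro t' ht'
      rcases Finset.mem_insert.1 ht' with rfl | h
      · exact PX.cm_right hgt (fun z hz => ALG.bracket_stable htΦ (inv_mem hD'Φ) hz)
      · exact PX.cm_left (hD'S t' h)
          (fun z hz => ALG.bracket_stable (hS t' ht') (inv_mem hgΦ) hz)
    · intro η z z' hz hz'
      obtain ⟨a0, ha0⟩ := PX.exists_as (L := K) p (algebraMap k K (θ * η) * W)
      obtain ⟨a1, ha1⟩ := PX.exists_as (L := K) p (algebraMap k K (θ * (η * χ)) * W)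
      have hz1 : (g⁻¹ z) ^ p - g⁻¹ z = algebraMap k K (η * χ) * W := by
        rw [← map_pow, ← map_sub, hz, map_mul, AlgEquiv.commutes, hgW, map_mul]
        ring
      have h0 := hD' η z a0 hz ha0
      have h1 := hD' (η * χ) (g⁻¹ z) a1 hz1 ha1
      obtain ⟨c, hc, -⟩ := PX.exists_const_sub (k := k) p (w := D' (g⁻¹ z)) (z := g⁻¹ z)
        (v := algebraMap k K (η * χ) * W) (by
          rw [← map_pow, ← map_sub, hz1, map_mul, AlgEquiv.commutes, hD'W]) hz1
      have h2 : D'⁻¹ (g⁻¹ z) = g⁻¹ z - algebraMap k K c := by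
        apply PX.inv_apply_eq
        rw [map_sub, hc, AlgEquiv.commutes]
        ring
      have h3 : PX.cm D' g z = D' z - algebraMap k K c := by
        rw [PX.cm_apply, h2, map_sub, AlgEquiv.commutes, PX.apply_inv, map_sub,
          AlgEquiv.commutes]
      have h4 : (a0 - a1) ^ p - (a0 - a1) = algebraMap k K (θ * (1 - χ) * η) * W := by
        rw [PX.sub_as, ha0, ha1, ← sub_mul, ← map_sub]
        congr 2
        ring
      have h5 := hsame v _ _ _ hz' h4
      rw [h3, h5, map_sub]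
      rw [hc] at h1
      linear_combination h0 - h1

/-- an automorphism which fixes `u` and `W` and moves the roots of `z ^ p - z = θ W` -/
theorem exists_v_aux [IsAlgClosed k] [IsAlgClosed K] (p : ℕ) [Fact p.Prime] [CharP K p]
    {F Ω : IntermediateField k K} (hΩ : ALG.ac Ω = Ω) {W : K} (hWΩ : W ∉ Ω)
    (htopW : ALG.ac (Ω ⊔ k⟮W⟯) = ⊤) (hF : F ≤ Ω ⊔ k⟮W⟯) {l : ℕ} {u : Fin l → K} {G : Gal(K/k)}
    (hGu : ∀ h ∈ F.fixingSubgroup, ∀ i, G (h (u i)) = h (u i))
    {χ : k} (hχ : χ ≠ 1) (hGW : G W = algebraMap k K χ * W) {θ : k} (hθ : θ ≠ 0) :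
    ∃ v : Gal(K/k), (∀ i, v (u i) = u i) ∧ v W = W ∧
      ∀ z : K, z ^ p - z = algebraMap k K θ * W → v z ≠ z := by
  have hθχ : θ * (χ - 1) ≠ 0 := mul_ne_zero hθ (sub_ne_zero.2 hχ)
  obtain ⟨z1, hz1⟩ := PX.exists_as (L := K) p (algebraMap k K (θ * (χ - 1)) * W)
  obtain ⟨τ, hτΩ, hτW, hτz⟩ := PX.exists_as_mover p Ω hΩ hWΩ htopW hθχ hz1
  have hτF : τ ∈ F.fixingSubgroup := by
    refine fixingSubgroup_antitone hF ?_
    rw [fixingSubgroup_sup, Subgroup.mem_inf]
    exact ⟨hτΩ, ALG.mem_fs_adjoin.2 (by rintro _ rfl; exact hτW)⟩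
  refine ⟨τ⁻¹ * G⁻¹ * τ * G, fun i => ?_, ?_, fun z hz hcon => ?_⟩
  · change τ⁻¹ (G⁻¹ (τ (G (u i)))) = u i
    have h1 : G (u i) = u i := hGu 1 (one_mem _) i
    rw [h1, PX.inv_apply_of_fix (hGu τ hτF i)]
    exact PX.inv_apply_eq rfl
  · change τ⁻¹ (G⁻¹ (τ (G W))) = W
    rw [hGW, map_mul, AlgEquiv.commutes, hτW, PX.inv_apply_eq hGW, PX.inv_apply_of_fix hτW]
  · change τ⁻¹ (G⁻¹ (τ (G z))) = z at hcon
    have hGz : (G z) ^ p - G z = algebraMap k K (θ * χ) * W := by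
      rw [← map_pow, ← map_sub, hz, map_mul, AlgEquiv.commutes, hGW, map_mul]
      ring
    obtain ⟨c2, hc2, -⟩ := PX.exists_const_sub (k := k) p (w := τ (G z)) (z := G z)
      (v := algebraMap k K (θ * χ) * W) (by
        rw [← map_pow, ← map_sub, hGz, map_mul, AlgEquiv.commutes, hτW]) hGz
    obtain ⟨c0, hc0, -⟩ := PX.exists_const_sub (k := k) p (w := τ z) (z := z)
      (v := algebraMap k K θ * W) (by
        rw [← map_pow, ← map_sub, hz, map_mul, AlgEquiv.commutes, hτW]) hz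
    have h1 : G⁻¹ (τ (G z)) = z + algebraMap k K c2 := by
      apply PX.inv_apply_eq
      rw [map_add, AlgEquiv.commutes, hc2]
    rw [h1] at hcon
    have h2 := congrArg τ hcon
    rw [PX.apply_inv, hc0] at h2
    have h3 : algebraMap k K c2 = algebraMap k K c0 := by linear_combination h2
    have h4 : (G z - z) ^ p - (G z - z) = algebraMap k K (θ * (χ - 1)) * W := by
      rw [PX.sub_as, hGz, hz, ← sub_mul, ← map_sub]
      congr 2
      ring
    obtain ⟨c, hc, -⟩ := PX.exists_const_sub (k := k) p h4 hz1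
    have h5 := congrArg τ hc
    rw [map_sub, hc2, hc0, map_add, hτz, AlgEquiv.commutes, h3] at h5
    exact one_ne_zero (α := K) (by linear_combination hc - h5)

/-- the Artin-Schreier roots of `W` are not in `comp D r` -/
theorem as_notMem_comp [IsAlgClosed k] [IsAlgClosed K] (p : ℕ) [Fact p.Prime] [CharP K p]
    {D : IntermediateField k K} {N r : ℕ} {W : K} (hrot : HasRot k D N r W)
    (hV : ∀ (l : ℕ) (u : Fin l → K), (∀ i, u i ∈ D) → ∀ θ : k, θ ≠ 0 →
      ∃ v : Gal(K/k), (∀ i, v (u i) = u i) ∧ v W = W ∧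
        ∀ z : K, z ^ p - z = algebraMap k K θ * W → v z ≠ z) {e : K} (he : e ^ p - e = W) :
    e ∉ comp D r := by
  classical
  intro hem
  rw [comp] at hem
  obtain ⟨S, hS⟩ := exists_finset_of_mem_iSup hem
  let S' : Finset (Fin r → K) := S.image Subtype.val
  let U : Finset K := S'.biUnion (fun t => Finset.univ.image t)
  let Φ : IntermediateField k K := adjoin k (U : Set K)
  have hUD : ∀ z ∈ U, z ∈ D := by
    intro z hz
    obtain ⟨t, ht, hz⟩ := Finset.mem_biUnion.1 hz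
    obtain ⟨i, -, rfl⟩ := Finset.mem_image.1 hz
    obtain ⟨t', -, rfl⟩ := Finset.mem_image.1 ht
    exact t'.2 i
  have hΦD : Φ ≤ D := by
    rw [adjoin_le_iff]
    exact hUD
  have hS' : ∀ t ∈ S', ∀ i, t i ∈ Φ := by
    intro t ht i
    apply subset_adjoin
    exact Finset.mem_biUnion.2 ⟨t, ht, Finset.mem_image.2 ⟨i, Finset.mem_univ i, rfl⟩⟩
  obtain ⟨θ, hθ, hall⟩ := exists_comm_W p hΦD hrot S' hS'
  obtain ⟨v, hvu, hvW, hvz⟩ := hV U.card (fun i => (U.equivFin.symm i : K))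
    (fun i => hUD _ (U.equivFin.symm i).2) θ hθ
  have hvΦ : v ∈ Φ.fixingSubgroup := by
    refine ALG.mem_fs_adjoin.2 (fun z hz => ?_)
    have h1 := hvu (U.equivFin ⟨z, hz⟩)
    rwa [Equiv.symm_apply_apply] at h1
  obtain ⟨D', -, -, hD'S, hD'⟩ := hall v hvΦ hvW
  obtain ⟨z', hz'⟩ := PX.exists_as (L := K) p (algebraMap k K θ * W)
  have h1 := hD' 1 e z' (by rw [he, map_one, one_mul]) (by rw [mul_one]; exact hz')
  have h2 : D' ∈ (⨆ t ∈ S, ALG.bracket (k := k) t.1).fixingSubgroup :=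
    ALG.fs_iSup_aux S (fun t : {t : Fin r → K // ∀ i, t i ∈ D} => ALG.bracket (k := k) t.1)
      (fun t ht => hD'S t.1 (Finset.mem_image.2 ⟨t, ht, rfl⟩))
  have h3 := ALG.mem_fs.1 h2 _ hS
  rw [h3, sub_self] at h1
  exact hvz z' hz' (sub_eq_zero.1 h1.symm)

end RS
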